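import Pool.Agent.helper63.Dg4.Spec

/-!
# Adding an active column (row COL of project dg4)
-/

namespace Pool.Agent.helper63.Dg4

open Encodable Pool.Agent.helper63.Diag

namespace ColRow

/-- the colouring `v` with column `κ` replaced by the constant `z` -/
def cv (κ z : ℕ) (v : ℕ → ℕ) : ℕ → ℕ := fun i => if i.unpair.1 = κ then z else v i

/-- the same for strings -/
def cc (κ z : ℕ) (ρ : List ℕ) : List ℕ :=
  (List.range ρ.length).map fun i => if i.unpair.1 = κ then z else ρ.getD i 0

theorem cc_res (κ z : ℕ) (v : ℕ → ℕ) (k : ℕ) : cc κ z (res v k) = res (cv κ z v) k := by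
  unfold cc
  rw [res_length]
  unfold res cv
  apply List.map_congr_left
  intro i hi
  have h := res_getD v (List.mem_range.1 hi)
  unfold res at h
  rw [h]

theorem primrec_cc (κ z : ℕ) : Primrec (cc κ z) := by
  unfold cc
  refine Primrec.list_map (Primrec.list_range.comp Primrec.list_length) ?_
  refine Primrec.ite (c := fun q : List ℕ × ℕ => q.2.unpair.1 = κ) ?_ ?_ ?_
  · exact Primrec.eq.comp (Primrec.fst.comp (Primrec.unpair.comp Primrec.snd)) (Primrec.const κ)
  · exact Primrec.const z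
  · exact (Primrec.list_getD 0).comp Primrec.fst Primrec.snd

/-- the decidable part of the new bad strings -/
def B1 (κ n a b : ℕ) (ρ : List ℕ) : Prop :=
  ((∃ i < ρ.length, ¬ i.unpair.1 = κ ∧ n ≤ ρ.getD i 0) ∨
    (∃ i < ρ.length, i.unpair.1 = κ ∧ ρ.getD i 0 < n)) ∨
  ((Nat.pair κ a < ρ.length ∧ ¬ ρ.getD (Nat.pair κ a) 0 = n) ∨
    (Nat.pair κ b < ρ.length ∧ ¬ ρ.getD (Nat.pair κ b) 0 = n + 1))

theorem prim_B1 (κ n a b : ℕ) : PrimrecPred (B1 κ n a b) := by
  unfold B1
  have hu : Primrec (fun q : List ℕ × ℕ => q.2.unpair.1) :=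
    Primrec.fst.comp (Primrec.unpair.comp Primrec.snd)
  have hg : Primrec (fun q : List ℕ × ℕ => q.1.getD q.2 0) :=
    (Primrec.list_getD 0).comp Primrec.fst Primrec.snd
  refine PrimrecPred.or (PrimrecPred.or ?_ ?_) (PrimrecPred.or ?_ ?_)
  · refine PRexlt (R := fun (ρ : List ℕ) (i : ℕ) => ¬ i.unpair.1 = κ ∧ n ≤ ρ.getD i 0) ?_
      Primrec.list_length
    exact PrimrecPred.and (PrimrecPred.not (Primrec.eq.comp hu (Primrec.const κ)))
      (Primrec.nat_le.comp (Primrec.const n) hg)
  · refine PRexlt (R := fun (ρ : List ℕ) (i : ℕ) => i.unpair.1 = κ ∧ ρ.getD i 0 < n) ?_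
      Primrec.list_length
    exact PrimrecPred.and (Primrec.eq.comp hu (Primrec.const κ))
      (Primrec.nat_lt.comp hg (Primrec.const n))
  · exact PrimrecPred.and (Primrec.nat_lt.comp (Primrec.const _) Primrec.list_length)
      (PrimrecPred.not (Primrec.eq.comp
        ((Primrec.list_getD 0).comp Primrec.id (Primrec.const _)) (Primrec.const n)))
  · exact PrimrecPred.and (Primrec.nat_lt.comp (Primrec.const _) Primrec.list_length)
      (PrimrecPred.not (Primrec.eq.comp
        ((Primrec.list_getD 0).comp Primrec.id (Primrec.const _)) (Primrec.const (n + 1))))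

/-- the enumerable part of the new bad strings -/
def B2 (κ : ℕ) (E : ℕ → ℕ → Prop) (ρ : List ℕ) : Prop :=
  ∃ t : ℕ × ℕ, E t.1 t.2 ∧ ((Nat.pair κ t.1 < ρ.length ∧ Nat.pair κ t.2 < ρ.length) ∧
    ¬ ρ.getD (Nat.pair κ t.1) 0 = ρ.getD (Nat.pair κ t.2) 0)

theorem ce_B2 (κ : ℕ) {E : ℕ → ℕ → Prop} (hE : CE fun p : ℕ × ℕ => E p.1 p.2) :
    CE (B2 κ E) := by
  unfold B2
  refine S1.ex (A := fun (ρ : List ℕ) (t : ℕ × ℕ) => E t.1 t.2 ∧
    ((Nat.pair κ t.1 < ρ.length ∧ Nat.pair κ t.2 < ρ.length) ∧
    ¬ ρ.getD (Nat.pair κ t.1) 0 = ρ.getD (Nat.pair κ t.2) 0)) ?_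
  refine S1.and (hE.comp Primrec.snd) (S1.prim ?_)
  have h1 : Primrec (fun q : List ℕ × (ℕ × ℕ) => Nat.pair κ q.2.1) :=
    Primrec₂.natPair.comp (Primrec.const κ) (Primrec.fst.comp Primrec.snd)
  have h2 : Primrec (fun q : List ℕ × (ℕ × ℕ) => Nat.pair κ q.2.2) :=
    Primrec₂.natPair.comp (Primrec.const κ) (Primrec.snd.comp Primrec.snd)
  have hl : Primrec (fun q : List ℕ × (ℕ × ℕ) => q.1.length) :=
    Primrec.list_length.comp Primrec.fst
  refine PrimrecPred.and (PrimrecPred.and ?_ ?_) (PrimrecPred.not ?_)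
  · exact Primrec.nat_lt.comp h1 hl
  · exact Primrec.nat_lt.comp h2 hl
  · exact Primrec.eq.comp ((Primrec.list_getD 0).comp Primrec.fst h1)
      ((Primrec.list_getD 0).comp Primrec.fst h2)

/-- the new bad strings -/
def NB (p : Cond) (E : ℕ → ℕ → Prop) (a b : ℕ) (ρ : List ℕ) : Prop :=
  p.Bad (cc p.ab.length p.z0 ρ) ∨ (B1 p.ab.length p.n a b ρ ∨ B2 p.ab.length E ρ)

theorem z0_lt (p : Cond) : p.z0 < p.n := by
  obtain ⟨v, hv⟩ := p.ne
  have h := p.zz v hv p.ab.length (by simp) 0
  rw [← h]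
  exact hv.1 _

theorem mem_NB {p : Cond} {E : ℕ → ℕ → Prop} {a b : ℕ} {v : ℕ → ℕ} :
    v ∈ cls (p.n + 2) (NB p E a b) ↔
      (∀ i, v i < p.n + 2) ∧ cv p.ab.length p.z0 v ∈ cls p.n p.Bad ∧
      (∀ i, i.unpair.1 = p.ab.length → p.n ≤ v i) ∧
      v (Nat.pair p.ab.length a) = p.n ∧ v (Nat.pair p.ab.length b) = p.n + 1 ∧
      ∀ x z, E x z → v (Nat.pair p.ab.length x) = v (Nat.pair p.ab.length z) := by
  constructor
  · rintro ⟨h1, h2⟩
    refine ⟨h1, ⟨?_, ?_⟩, ?_, ?_, ?_, ?_⟩
    · intro i
      unfold cv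
      split_ifs with h
      · exact z0_lt p
      · by_contra hc
        refine h2 (i + 1) (Or.inr (Or.inl (Or.inl (Or.inl ⟨i, by rw [res_length]; omega, h, ?_⟩))))
        rw [res_getD v (by omega)]
        omega
    · intro k hk
      rw [← cc_res] at hk
      exact h2 k (Or.inl hk)
    · intro i hi
      by_contra hc
      refine h2 (i + 1) (Or.inr (Or.inl (Or.inl (Or.inr ⟨i, by rw [res_length]; omega, hi, ?_⟩))))
      rw [res_getD v (by omega)]
      omega
    · by_contra hc
      refine h2 (Nat.pair p.ab.length a + 1)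
        (Or.inr (Or.inl (Or.inr (Or.inl ⟨by rw [res_length]; omega, ?_⟩))))
      rw [res_getD v (by omega)]
      exact hc
    · by_contra hc
      refine h2 (Nat.pair p.ab.length b + 1)
        (Or.inr (Or.inl (Or.inr (Or.inr ⟨by rw [res_length]; omega, ?_⟩))))
      rw [res_getD v (by omega)]
      exact hc
    · intro x z hxz
      by_contra hc
      refine h2 (Nat.pair p.ab.length x + Nat.pair p.ab.length z + 1)
        (Or.inr (Or.inr ⟨(x, z), hxz, ⟨?_, ?_⟩, ?_⟩))
      · rw [res_length]; show Nat.pair p.ab.length x < _; omega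
      · rw [res_length]; show Nat.pair p.ab.length z < _; omega
      · show ¬ (res v _).getD (Nat.pair p.ab.length x) 0 = (res v _).getD (Nat.pair p.ab.length z) 0
        rw [res_getD v (by omega), res_getD v (by omega)]
        exact hc
  · rintro ⟨h1, h2, h3, h4, h5, h6⟩
    refine ⟨h1, fun k hk => ?_⟩
    rcases hk with hk | (((⟨i, hi, hi2, hi3⟩ | ⟨i, hi, hi2, hi3⟩) | (⟨hi, hi2⟩ | ⟨hi, hi2⟩)) |
      ⟨t, ht, ⟨ht1, ht2⟩, ht3⟩)
    · rw [cc_res] at hk
      exact h2.2 k hk
    · rw [res_length] at hi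
      rw [res_getD v hi] at hi3
      have := h2.1 i
      unfold cv at this
      rw [if_neg hi2] at this
      omega
    · rw [res_length] at hi
      rw [res_getD v hi] at hi3
      have := h3 i hi2
      omega
    · rw [res_length] at hi
      rw [res_getD v hi] at hi2
      exact hi2 h4
    · rw [res_length] at hi
      rw [res_getD v hi] at hi2
      exact hi2 h5
    · rw [res_length] at ht1 ht2
      rw [res_getD v ht1, res_getD v ht2] at ht3
      exact ht3 (h6 _ _ ht)

theorem cv_pair {κ z : ℕ} {v : ℕ → ℕ} {j x : ℕ} (h : j ≠ κ) :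
    cv κ z v (Nat.pair j x) = v (Nat.pair j x) := by
  unfold cv
  rw [Nat.unpair_pair, if_neg h]

theorem getD_old {l : List ℕ} {j : ℕ} (h : j ≠ l.length) :
    (l ++ [2]).getD j 0 = l.getD j 0 := by
  rcases lt_or_gt_of_ne h with h | h
  · rw [List.getD_eq_getElem?_getD, List.getD_eq_getElem?_getD, List.getElem?_append_left h]
  · rw [List.getD_eq_getElem?_getD, List.getD_eq_getElem?_getD, List.getElem?_eq_none,
      List.getElem?_eq_none (by omega)]
    simp only [List.length_append, List.length_singleton]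
    omega

theorem getD_new (l : List ℕ) : (l ++ [2]).getD l.length 0 = 2 := by simp

/-- the new map of the colours -/
def nf (n : ℕ) (fl : ℕ → ℕ) (c : ℕ) : ℕ := if c < n then fl c else if c = n then n + 1 else n

theorem primrec_nf (n : ℕ) {fl : ℕ → ℕ} (h : Primrec fl) : Primrec (nf n fl) := by
  unfold nf
  refine Primrec.ite (c := fun c : ℕ => c < n) ?_ h ?_
  · exact Primrec.nat_lt.comp Primrec.id (Primrec.const n)
  · refine Primrec.ite (c := fun c : ℕ => c = n) ?_ (Primrec.const _) (Primrec.const _)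
    exact Primrec.eq.comp Primrec.id (Primrec.const n)

theorem nf_old {n c : ℕ} {fl : ℕ → ℕ} (h : c < n) : nf n fl c = fl c := by
  unfold nf; rw [if_pos h]

/-- the new condition -/
noncomputable def col' (p : Cond) (C : HC) (a b : ℕ) (hab : ¬ C.E a b) : Cond where
  ab := p.ab ++ [2]
  ce := fun j => if j = p.ab.length then C else p.ce j
  σ := p.σ
  n := p.n + 2
  fl := nf p.n p.fl
  Y := fun j c => if j = p.ab.length then (if c = p.n then a else b) else p.Y j c
  z0 := p.z0
  Bad := NB p C.E a b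
  re := S1.or (p.re.comp (primrec_cc _ _)) (S1.or (S1.prim (prim_B1 _ _ _ _)) (ce_B2 _ C.ce))
  hfl := primrec_nf _ p.hfl
  inv := by
    intro v hv j hj x z hxz
    obtain ⟨h1, h2, h3, h4, h5, h6⟩ := mem_NB.1 hv
    by_cases hjk : j = p.ab.length
    · rw [if_pos hjk] at hxz
      rw [hjk]
      exact h6 x z hxz
    · rw [if_neg hjk] at hxz
      rw [getD_old hjk] at hj
      have := p.inv _ h2 j hj x z hxz
      rwa [cv_pair hjk, cv_pair hjk] at this
  fl_ne := by
    intro v hv j hj x
    obtain ⟨h1, h2, h3, h4, h5, h6⟩ := mem_NB.1 hv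
    by_cases hjk : j = p.ab.length
    · have h7 := h3 (Nat.pair j x) (by rw [Nat.unpair_pair]; exact hjk)
      have h8 := h1 (Nat.pair j x)
      unfold nf
      rw [if_neg (by omega)]
      split_ifs with h9
      · omega
      · omega
    · rw [getD_old hjk] at hj
      have h7 := p.fl_ne _ h2 j hj x
      have h8 := h2.1 (Nat.pair j x)
      rw [cv_pair hjk] at h7 h8
      rwa [nf_old h8]
  yc := by
    intro v hv j hj x
    obtain ⟨h1, h2, h3, h4, h5, h6⟩ := mem_NB.1 hv
    by_cases hjk : j = p.ab.length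
    · have h7 := h3 (Nat.pair j x) (by rw [Nat.unpair_pair]; exact hjk)
      have h8 := h1 (Nat.pair j x)
      simp only [if_pos hjk]
      by_cases h9 : v (Nat.pair j x) = p.n
      · have : nf p.n p.fl (v (Nat.pair j x)) = p.n + 1 := by
          unfold nf; rw [if_neg (by omega), if_pos h9]
        rw [this, if_neg (by omega), hjk]
        exact h5
      · have : nf p.n p.fl (v (Nat.pair j x)) = p.n := by
          unfold nf; rw [if_neg (by omega), if_neg h9]
        rw [this, if_pos rfl, hjk]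
        exact h4
    · rw [getD_old hjk] at hj
      have h7 := p.yc _ h2 j hj x
      have h8 := h2.1 (Nat.pair j x)
      rw [cv_pair hjk] at h7 h8
      rw [cv_pair hjk] at h7
      simp only [if_neg hjk]
      rw [nf_old h8]
      exact h7
  zz := by
    intro v hv j hj x
    obtain ⟨h1, h2, h3, h4, h5, h6⟩ := mem_NB.1 hv
    have hjk : j ≠ p.ab.length := by
      rintro rfl
      rw [getD_new] at hj
      omega
    rw [getD_old hjk] at hj
    have := p.zz _ h2 j hj x
    rwa [cv_pair hjk] at this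
  ne := by
    classical
    obtain ⟨v, hv⟩ := p.ne
    refine ⟨fun i => if i.unpair.1 = p.ab.length then
      (if C.E a i.unpair.2 then p.n else p.n + 1) else v i, mem_NB.2 ⟨?_, ?_, ?_, ?_, ?_, ?_⟩⟩
    · intro i
      have := hv.1 i
      split_ifs <;> omega
    · have : cv p.ab.length p.z0 (fun i => if i.unpair.1 = p.ab.length then
          (if C.E a i.unpair.2 then p.n else p.n + 1) else v i) = v := by
        funext i
        unfold cv
        by_cases hi : i.unpair.1 = p.ab.length
        · rw [if_pos hi]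
          have := p.zz v hv p.ab.length (by simp) i.unpair.2
          rw [← hi, Nat.pair_unpair] at this
          exact this.symm
        · rw [if_neg hi]
          exact if_neg hi
      rw [this]
      exact hv
    · intro i hi
      rw [if_pos hi]
      split_ifs <;> omega
    · simp only [Nat.unpair_pair, if_true]
      rw [if_pos (C.eqv.refl a)]
    · simp only [Nat.unpair_pair, if_true]
      rw [if_neg hab]
    · intro x z hxz
      simp only [Nat.unpair_pair, if_true]
      have : C.E a x ↔ C.E a z :=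
        ⟨fun h => C.eqv.trans h hxz, fun h => C.eqv.trans h (C.eqv.symm hxz)⟩
      by_cases h : C.E a x
      · rw [if_pos h, if_pos (this.1 h)]
      · rw [if_neg h, if_neg (fun h' => h (this.2 h'))]

end ColRow

open ColRow in
theorem COL : COL_stmt := by
  intro p C
  obtain ⟨a, b, hab⟩ := C.ne
  refine ⟨col' p C a b hab, p.ab.length, ⟨?_, ?_, ?_⟩, ?_, ?_⟩
  · intro j hj
    have hjk : j ≠ p.ab.length := by
      rintro rfl
      simp at hj
    exact ⟨getD_old hjk, if_neg hjk⟩
  · show p.σ.take p.σ.length = p.σ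
    simp
  · rintro g ⟨h1, v, hv, h2⟩
    obtain ⟨g1, g2, g3, g4, g5, g6⟩ := mem_NB.1 hv
    refine ⟨h1, _, g2, fun i hi => ?_⟩
    have h3 := h2 i hi
    by_cases hc : col i = p.ab.length
    · unfold Ok
      rw [hc]
      constructor
      · intro h; simp at h
      · intro h; simp at h
    · have h4 : (p.ab ++ [2]).getD (col i) 0 = p.ab.getD (col i) 0 := getD_old hc
      have h5 := g2.1 (Nat.pair (col i) (el i))
      rw [cv_pair hc] at h5
      unfold Ok at h3 ⊢
      change ((p.ab ++ [2]).getD (col i) 0 = 1 → g i = 0) ∧ ((p.ab ++ [2]).getD (col i) 0 = 2 →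
        g i = 0 ∨ v (Nat.pair (col i) (g i - 1)) =
          nf p.n p.fl (v (Nat.pair (col i) (el i)))) at h3
      rw [h4, nf_old h5] at h3
      rw [cv_pair hc, cv_pair hc]
      exact h3
  · exact getD_new p.ab
  · exact if_pos rfl

end Pool.Agent.helper63.Dg4
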